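import Pool.Agent.KT3.StmtsC

/-!
# KT3 squad, row RET: near returns of a closed invariant class
-/

set_option autoImplicit false

open Matrix Filter Topology

namespace Pool.Agent.KT3.H92

open Pool.Agent.PFS Pool.Agent.PFJ Pool.Agent.NBT Pool.Agent.KT3

theorem ret : RetStmt := by
  intro n k C Γ h T hT a
  have hcc : CC C Γ := h.toCC
  obtain ⟨w0, hw0⟩ := hT.ne
  obtain ⟨y, hy⟩ : ∃ y : ℕ → Fin (k + 1) → V n, ∀ m i,
      y m i = Real.exp (-(a i * (m : ℝ) ^ 2)) • w0 i := ⟨_, fun _ _ => rfl⟩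
  have hyT : ∀ m, T (y m) := by
    intro m
    have e : y m = fun i => Real.exp (-(a i * (m : ℝ) ^ 2)) • w0 i := funext fun i => hy m i
    rw [e]
    exact hT.scl w0 hw0 (fun i => Real.exp (-(a i * (m : ℝ) ^ 2))) (fun i => Real.exp_pos _)
  have hpC : ∀ m, ∑ i, y m i ∈ C := by
    intro m
    have h1 := (hT.pes _ (hyT m)).1.pos (fun _ => 1) (fun _ => one_pos)
    simpa using h1
  have hpH : ∀ m, ∑ i, y m i ∈ Hull C Γ := by
    intro m
    have h1 := (H60.elm n C Γ hcc (Fin (k + 1)) (y m) (hT.pes _ (hyT m))).2.2.2.1 (fun _ => 1)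
      (fun _ => one_pos)
    simpa using h1
  obtain ⟨φ, g, s, q, hφ, hg, hs, hq, hlim⟩ := H60.zom n C Γ hcc (fun m => ∑ i, y m i) hpC hpH
  obtain ⟨u, hu⟩ : ∃ u : ℕ → Fin (k + 1) → V n, ∀ m i,
      u m i = s m • act (g m) (y (φ m) i) := ⟨_, fun _ _ => rfl⟩
  have huT : ∀ m, T (u m) := by
    intro m
    have e : u m = fun i => s m • act (g m) (y (φ m) i) := funext fun i => hu m i
    rw [e]
    exact hT.inv _ (hyT _) _ (hg m) _ (hs m)
  have hulim : Tendsto (fun m => ∑ i, u m i) atTop (𝓝 q) := by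
    refine hlim.congr fun m => ?_
    show s m • act (g m) (∑ i, y (φ m) i) = ∑ i, u m i
    rw [CC.act_sum, Finset.smul_sum]
    exact Finset.sum_congr rfl fun i _ => (hu m i).symm
  have hcard : 2 ≤ Fintype.card (Fin (k + 1)) := by
    have := h.three
    simp only [Fintype.card_fin]
    omega
  obtain ⟨ψ, W, hψ, hW, hsum, hWp⟩ := H37.lpsF n C Γ hcc (Fin (k + 1)) hcard u q
    (fun m => hT.pes _ (huT m)) hq hulim
  have hTW : T W := hT.cld (fun m => u (ψ m)) W (fun m => huT _) hW (by rw [hsum]; exact hq)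
  have hθ : StrictMono (fun m => φ (ψ m)) := hφ.comp hψ
  refine ⟨W, hTW, ?_⟩
  intro ε S hε
  have hev : ∀ᶠ m in atTop, ∀ i, ‖u (ψ m) i - W i‖ < ε := by
    rw [eventually_all]
    intro i
    have h1 := (Metric.tendsto_nhds.1 (hW i)) ε hε
    filter_upwards [h1] with m hm
    rwa [dist_eq_norm] at hm
  obtain ⟨M, hM⟩ := eventually_atTop.1 hev
  obtain ⟨m, hmM, hmS⟩ : ∃ m : ℕ, M ≤ m ∧ S ≤ (m : ℝ) :=
    ⟨max M ⌈S⌉₊, le_max_left _ _, (Nat.le_ceil S).trans (by exact_mod_cast le_max_right _ _)⟩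
  have hθ1 : m ≤ φ (ψ m) := hθ.le_apply
  have hθ2 : φ (ψ m) + 1 ≤ φ (ψ (m + 1)) := hθ (Nat.lt_succ_self m)
  have hθ1r : (m : ℝ) ≤ (φ (ψ m) : ℝ) := by exact_mod_cast hθ1
  have hθ2r : (φ (ψ m) : ℝ) + 1 ≤ (φ (ψ (m + 1)) : ℝ) := by exact_mod_cast hθ2
  have hθ0 : (0 : ℝ) ≤ (φ (ψ m) : ℝ) := Nat.cast_nonneg _
  have hs0 := hs (ψ m)
  have hs1 := hs (ψ (m + 1))
  refine ⟨u (ψ m), u (ψ (m + 1)), g (ψ (m + 1)) * (g (ψ m))⁻¹, s (ψ (m + 1)) / s (ψ m),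
    (φ (ψ (m + 1)) : ℝ) ^ 2 - (φ (ψ m) : ℝ) ^ 2, huT _, huT _,
    fun i => ⟨hM m hmM i, hM (m + 1) (hmM.trans (Nat.le_succ m)) i⟩,
    Γ.mul_mem (hg _) (Γ.inv_mem (hg _)), div_pos hs1 hs0, ?_, ?_⟩
  · nlinarith
  · intro i
    rw [hu, hu, hy, hy, CC.act_smul, CC.act_smul, CC.act_smul, CC.act_smul, CC.act_mul,
      CC.act_inv_act, smul_smul, smul_smul, smul_smul, smul_smul]
    congr 1
    have e : Real.exp (-(a i * (φ (ψ m) : ℝ) ^ 2)) =
        Real.exp (a i * ((φ (ψ (m + 1)) : ℝ) ^ 2 - (φ (ψ m) : ℝ) ^ 2)) *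
          Real.exp (-(a i * (φ (ψ (m + 1)) : ℝ) ^ 2)) := by
      rw [← Real.exp_add]
      congr 1
      ring
    rw [e]
    field_simp

end Pool.Agent.KT3.H92
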