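import Pool.Agent.KT3.StmtsM

/-!
# KT3 squad, row STP: stopping time
-/

set_option autoImplicit false

open Matrix Filter Topology

namespace Pool.Agent.KT3.H92

open Pool.Agent.PFS Pool.Agent.PFJ Pool.Agent.NBT Pool.Agent.KT3

theorem stp : StpStmt := by
  intro n C hC x0 r u φ hx hr hext hφx hφu hu h1 h2
  obtain ⟨P, hP⟩ : ∃ P : ℕ → Prop, ∀ k, P k ↔
      (x0 + Real.exp (-((k : ℝ) * Real.log 2)) • r - (4 : ℝ) • u ∈ closure C ∧
        x0 + Real.exp (-((k : ℝ) * Real.log 2)) • r + (4 : ℝ) • u ∈ closure C) :=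
    ⟨_, fun _ => Iff.rfl⟩
  have hP0 : P 0 := by
    rw [hP]
    simp only [Nat.cast_zero, zero_mul, neg_zero, Real.exp_zero, one_smul]
    exact ⟨h1, h2⟩
  have hex : ∃ k, P k ∧ ¬ P (k + 1) := by
    by_contra hcon
    push Not at hcon
    have hall : ∀ k, P k := by
      intro k
      induction k with
      | zero => exact hP0
      | succ k ih => exact hcon k ih
    have hlog : 0 < Real.log 2 := Real.log_pos (by norm_num)
    have hlim : Tendsto (fun k : ℕ => Real.exp (-((k : ℝ) * Real.log 2))) atTop (𝓝 0) := by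
      apply Real.tendsto_exp_atBot.comp
      apply tendsto_neg_atTop_atBot.comp
      exact Tendsto.atTop_mul_const hlog tendsto_natCast_atTop_atTop
    have hb : Tendsto (fun k : ℕ => x0 + Real.exp (-((k : ℝ) * Real.log 2)) • r) atTop
        (𝓝 (x0 + (0 : ℝ) • r)) := tendsto_const_nhds.add (hlim.smul tendsto_const_nhds)
    rw [zero_smul, add_zero] at hb
    have c1 : x0 - (4 : ℝ) • u ∈ closure C :=
      isClosed_closure.mem_of_tendsto (hb.sub tendsto_const_nhds)
        (Eventually.of_forall fun k => ((hP k).1 (hall k)).1)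
    have c2 : x0 + (4 : ℝ) • u ∈ closure C :=
      isClosed_closure.mem_of_tendsto (hb.add tendsto_const_nhds)
        (Eventually.of_forall fun k => ((hP k).1 (hall k)).2)
    have d1 : x0 + u ∈ closure C := by
      have e : x0 + u = (3 / 4 : ℝ) • x0 + (1 / 4 : ℝ) • (x0 + (4 : ℝ) • u) := by module
      rw [e]
      exact hC.cl_add (hC.cl_smul hx (by norm_num)) (hC.cl_smul c2 (by norm_num))
    have d2 : (2 : ℝ) • x0 - (x0 + u) ∈ closure C := by
      have e : (2 : ℝ) • x0 - (x0 + u) = (3 / 4 : ℝ) • x0 + (1 / 4 : ℝ) • (x0 - (4 : ℝ) • u) := by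
        module
      rw [e]
      exact hC.cl_add (hC.cl_smul hx (by norm_num)) (hC.cl_smul c1 (by norm_num))
    obtain ⟨c, hc⟩ := hext _ d1 2 d2
    have h3 := congrArg φ hc
    rw [map_add, map_smul, hφx, hφu, add_zero, smul_eq_mul, mul_one] at h3
    rw [← h3, one_smul] at hc
    exact hu (by simpa using hc)
  obtain ⟨k, hk, hk'⟩ := hex
  refine ⟨(k : ℝ) * Real.log 2, ?_, ((hP k).1 hk).1, ((hP k).1 hk).2, ?_⟩
  · have : 0 ≤ Real.log 2 := Real.log_nonneg (by norm_num)
    positivity
  · intro h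
    apply hk'
    rw [hP]
    have e : ((k + 1 : ℕ) : ℝ) * Real.log 2 = (k : ℝ) * Real.log 2 + Real.log 2 := by
      push_cast; ring
    rw [e]
    exact h

end Pool.Agent.KT3.H92
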