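import Pool.Agent.KT3.StmtsA
import Pool.Agent.Helper17_NBT.PJF

/-!
# KT3 squad, row WIF: facts on the projection of a wall

Adapted from `Helper17_NBT/PJF.lean`.
-/

set_option autoImplicit false

open Matrix Filter Topology

namespace Pool.Agent.KT3.H92

open Pool.Agent.PFS Pool.Agent.PFJ Pool.Agent.NBT Pool.Agent.PCO Pool.Agent.KT3
open Pool.Agent.NBT.H17

theorem pri_unique {n K : ℕ} {C : Set (V n)} {w : Fin K → V n} {I : Finset (Fin K)}
    {p p' : V n →ₗ[ℝ] V n} (hp : PrI C w I p) (hp' : PrI C w I p') : p' = p := by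
  refine LinearMap.ext fun x => ?_
  have h1 : p (x - p x) = 0 := by rw [map_sub, hp.idB _ (hp.mem x), sub_self]
  have h2 : p' (x - p x) = 0 := (hp'.ker _).2 ((hp.ker _).1 h1)
  rw [map_sub, hp'.idB _ (hp.mem x), sub_eq_zero] at h2
  exact h2

theorem wif (_hWIP : WipStmt) (hWII : WiiStmt) : WifStmt := by
  intro n C Γ K I d h w hw p hp
  have hcc : CC C Γ := h.toHK.toCC
  have hC : PCone C := hcc.toPCone
  have hcl : ∀ i, w i ∈ closure C := hw.pes.1.cl
  obtain ⟨b1, b2, -⟩ := hWII n C Γ K I d h w hw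
  refine ⟨?_, ?_, ?_, ?_, ?_, ?_, ?_⟩
  · intro m hm
    rw [hp.ker]
    have hm' : m ∈ Iᶜ := Finset.mem_compl.2 hm
    intro x hx τ hτ
    have hτx : τ • x ∈ closure C := subset_closure (hC.smul x hx τ hτ)
    refine ⟨1, one_pos, ?_, ?_⟩
    · have e : (1 : ℝ) • fS w Iᶜ + τ • x - w m = (fS w Iᶜ - w m) + τ • x := by
        rw [one_smul]; abel
      rw [e]; exact hC.cl_add (fS_sub_single hC hcl hm') hτx
    · rw [one_smul]
      exact hC.cl_add (hC.cl_add (fS_cl hC hcl _) hτx) (hcl m)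
  · intro x hx
    refine ⟨hp.mem x, hp.pos x (subset_closure hx), ?_⟩
    intro z hz
    obtain ⟨M, hM, h1⟩ := hC.absorb hx z
    refine ⟨M, hM, ?_⟩
    have h2 := hp.pos _ (subset_closure h1)
    rwa [map_sub, map_smul, hp.idB z hz] at h2
  · intro p' hp'
    exact pri_unique hp hp'
  · intro r hr
    refine ⟨?_, ?_, hp.pos, ?_⟩
    · intro x; rw [(b1 r hr).2]; exact hp.mem x
    · intro y hy; rw [(b1 r hr).2] at hy; exact hp.idB y hy
    · intro x; rw [hp.ker, sml_scale hC hcl r hr]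
  · intro g hgΓ s hs p' hp' x
    let A : V n →ₗ[ℝ] V n := Matrix.mulVecLin (g : Matrix (Fin n) (Fin n) ℝ)
    let A' : V n →ₗ[ℝ] V n := Matrix.mulVecLin ((g⁻¹ : GL (Fin n) ℝ) : Matrix (Fin n) (Fin n) ℝ)
    have hap : ∀ x, (A ∘ₗ p ∘ₗ A') x = act g (p (act g⁻¹ x)) := fun x => rfl
    have hq : PrI C (fun i => s • act g (w i)) I (A ∘ₗ p ∘ₗ A') := by
      refine ⟨?_, ?_, ?_, ?_⟩
      · intro x
        rw [(b2 g hgΓ s hs).2, hap]
        exact mem_img.2 ⟨_, hp.mem _, rfl⟩
      · intro y hy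
        rw [(b2 g hgΓ s hs).2] at hy
        obtain ⟨y0, hy0, rfl⟩ := mem_img.1 hy
        rw [hap, CC.act_inv_act, hp.idB _ hy0]
      · intro x hx
        rw [hap]
        exact hcc.act_cl hgΓ (hp.pos _ (hcc.act_cl (Γ.inv_mem hgΓ) hx))
      · intro x
        rw [hap, fS_sact, sml_act hcc hgΓ hs, ← hp.ker]
        constructor
        · intro h0
          apply CC.act_injective g
          rw [h0, CC.act_zero]
        · intro h0
          rw [h0, CC.act_zero]
    rw [pri_unique hq hp', hap, CC.act_inv_act]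
  · intro w' hw' hout p' hp'
    have hfe : fS w' Iᶜ = fS w Iᶜ := by
      unfold fS
      exact Finset.sum_congr rfl fun i hi => hout i (Finset.mem_compl.1 hi)
    have hk : ∀ x, p' x = 0 ↔ p x = 0 := by
      intro x; rw [hp'.ker, hp.ker, hfe]
    refine ⟨?_, ?_⟩
    · intro x
      have h1 : p' (x - p' x) = 0 := by rw [map_sub, hp'.idB _ (hp'.mem x), sub_self]
      have h2 := (hk _).1 h1
      rw [map_sub, sub_eq_zero] at h2
      exact h2.symm
    · intro y hy
      have h1 : p (y - p y) = 0 := by rw [map_sub, hp.idB _ (hp.mem y), sub_self]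
      have h2 := (hk _).2 h1
      rw [map_sub, hp'.idB y hy, sub_eq_zero] at h2
      exact h2.symm
  · have hf := fcs n C hC (fS w I) (fS_cl hC hcl I)
    exact ⟨hf.1, hf.2.1⟩

end Pool.Agent.KT3.H92
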