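import Pool.Agent.KT3.StmtsA

/-!
# KT3 squad, row WIQ: continuity of the projections of walls

Adapted from `Helper94_NBT/PJC.lean`.  `z_m ∈ BI C (x m) I`, `z_m → p y` (WIC), so `pm z_m = z_m`, and
`v_m = ym - z_m → u = y - p y`, `p u = 0`, `u` is small relative to `f_{Iᶜ}`; applying `pm` to
`κ f_{Iᶜ}(x_m) + 2 τ ∑ x_m ± v_m ∈ C` gives `2 τ f_I(x_m) ± pm v_m ∈ closure C`, so `pm v_m → 0`.
-/

set_option autoImplicit false

open Matrix Filter Topology

namespace Pool.Agent.KT3.H92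

open Pool.Agent.PFS Pool.Agent.PFJ Pool.Agent.NBT Pool.Agent.KT3

theorem wiq (hWIC : WicStmt) (hWIF : WifStmt) : WiqStmt := by
  intro n C Γ K I d h x w hx hw hlim pm p ym y hpm hp hy
  have hC : PCone C := h.toHK.toCC.toPCone
  obtain ⟨B, hB, hnorm⟩ := hC.normal
  have hsum : ∑ i, w i ∈ C := hw.pes.1.sum_mem
  obtain ⟨z, hz, hzt⟩ := (hWIC n C Γ K I d h x w hx hlim hsum).2.1 (p y) (hp.mem y)
  have hpu : p (y - p y) = 0 := by rw [map_sub, hp.idB _ (hp.mem y), sub_self]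
  have hsml := (hp.ker _).1 hpu
  have hv : Tendsto (fun m => ym m - z m) atTop (𝓝 (y - p y)) := hy.sub hzt
  have hfc : Tendsto (fun m => fS (x m) Iᶜ) atTop (𝓝 (fS w Iᶜ)) :=
    tendsto_finsetSum _ fun i _ => hlim i
  have hfI : Tendsto (fun m => fS (x m) I) atTop (𝓝 (fS w I)) :=
    tendsto_finsetSum _ fun i _ => hlim i
  have hfs : Tendsto (fun m => ∑ i, x m i) atTop (𝓝 (∑ i, w i)) :=
    tendsto_finsetSum _ fun i _ => hlim i
  have hpc : ∀ m, pm m (fS (x m) Iᶜ) = 0 := by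
    intro m
    unfold fS
    rw [map_sum]
    exact Finset.sum_eq_zero fun i hi =>
      (hWIF n C Γ K I d h (x m) (hx m) (pm m) (hpm m)).1 i (Finset.mem_compl.1 hi)
  have hps : ∀ m, pm m (∑ i, x m i) = fS (x m) I := by
    intro m
    rw [← fS_add_compl (x m) I, map_add, hpc m, add_zero]
    exact (hpm m).idB _ (hWIF n C Γ K I d h (x m) (hx m) (pm m) (hpm m)).2.2.2.2.2.2.1.1
  have key : Tendsto (fun m => pm m (ym m - z m)) atTop (𝓝 0) := by
    rw [Metric.tendsto_nhds]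
    intro ε hε
    set D : ℝ := (4 * B + 2) * (‖fS w I‖ + 1) with hD
    have hDpos : 0 < D := by positivity
    set τ : ℝ := ε / (2 * D) with hτ
    have hτpos : 0 < τ := by positivity
    obtain ⟨κ, hκ, hk1, hk2⟩ := hsml _ hsum τ hτpos
    have hτs : τ • (∑ i, w i) ∈ C := hC.smul _ hsum τ hτpos
    have m1 : κ • fS w Iᶜ + (2 * τ) • (∑ i, w i) - (y - p y) ∈ C := by
      have := hC.cl_add' hk1 hτs
      have e : κ • fS w Iᶜ + τ • (∑ i, w i) - (y - p y) + τ • (∑ i, w i) =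
          κ • fS w Iᶜ + (2 * τ) • (∑ i, w i) - (y - p y) := by
        rw [two_mul, add_smul]; abel
      rwa [e] at this
    have m2 : κ • fS w Iᶜ + (2 * τ) • (∑ i, w i) + (y - p y) ∈ C := by
      have := hC.cl_add' hk2 hτs
      have e : κ • fS w Iᶜ + τ • (∑ i, w i) + (y - p y) + τ • (∑ i, w i) =
          κ • fS w Iᶜ + (2 * τ) • (∑ i, w i) + (y - p y) := by
        rw [two_mul, add_smul]; abel
      rwa [e] at this
    have e1 : ∀ᶠ m in atTop,
        κ • fS (x m) Iᶜ + (2 * τ) • (∑ i, x m i) - (ym m - z m) ∈ C :=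
      (((hfc.const_smul κ).add (hfs.const_smul (2 * τ))).sub hv).eventually
        (hC.isOpen.mem_nhds m1)
    have e2 : ∀ᶠ m in atTop,
        κ • fS (x m) Iᶜ + (2 * τ) • (∑ i, x m i) + (ym m - z m) ∈ C :=
      (((hfc.const_smul κ).add (hfs.const_smul (2 * τ))).add hv).eventually
        (hC.isOpen.mem_nhds m2)
    have e3 : ∀ᶠ m in atTop, ‖fS (x m) I‖ < ‖fS w I‖ + 1 :=
      hfI.norm.eventually_lt_const (by linarith)
    filter_upwards [e1, e2, e3] with m h1 h2 h3
    rw [dist_zero_right]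
    have g1 := (hpm m).pos _ (subset_closure h1)
    have g2 := (hpm m).pos _ (subset_closure h2)
    rw [map_sub, map_add, map_smul, map_smul, hpc m, hps m, smul_zero, zero_add] at g1
    rw [map_add, map_add, map_smul, map_smul, hpc m, hps m, smul_zero, zero_add] at g2
    set q := pm m (ym m - z m) with hq
    have h4 := hnorm ((2 * τ) • fS (x m) I + q) ((4 * τ) • fS (x m) I) g2 (by
      have e : (4 * τ) • fS (x m) I - ((2 * τ) • fS (x m) I + q) = (2 * τ) • fS (x m) I - q := by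
        have : (4 * τ) = 2 * τ + 2 * τ := by ring
        rw [this, add_smul]; abel
      rw [e]; exact g1)
    have h5 : ‖q‖ ≤ ‖(2 * τ) • fS (x m) I + q‖ + ‖(2 * τ) • fS (x m) I‖ := by
      have e : q = ((2 * τ) • fS (x m) I + q) - (2 * τ) • fS (x m) I := by abel
      calc ‖q‖ = ‖((2 * τ) • fS (x m) I + q) - (2 * τ) • fS (x m) I‖ := by rw [← e]
        _ ≤ _ := norm_sub_le _ _
    rw [norm_smul, Real.norm_of_nonneg (by positivity)] at h4 h5
    have h6 : ‖q‖ ≤ τ * (4 * B + 2) * ‖fS (x m) I‖ := by nlinarith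
    have h7 : τ * (4 * B + 2) * ‖fS (x m) I‖ ≤ τ * D := by
      rw [hD, mul_assoc]
      gcongr
    have h8 : τ * D = ε / 2 := by
      rw [hτ]
      field_simp
    linarith
  have h9 : ∀ m, pm m (ym m) = z m + pm m (ym m - z m) := by
    intro m
    rw [map_sub, (hpm m).idB _ (hz m)]
    abel
  have h10 : Tendsto (fun m => z m + pm m (ym m - z m)) atTop (𝓝 (p y + 0)) := hzt.add key
  rw [add_zero] at h10
  exact h10.congr fun m => (h9 m).symm

end Pool.Agent.KT3.H92
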